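import Pool.Agent.Helper88.QR.StmtsB

/-!
# Block B of QR, row B05: the corners between `x` and `α x` are closed under `α`
-/

namespace QRB

namespace H1

open QR Classical

theorem card_period {C : Type} [Finite C] (τ : Equiv.Perm C) (h : OneCyc τ) (x : C) :
    Nat.card C = Function.minimalPeriod τ x := by
  have hper : x ∈ Function.periodicPts (τ : C → C) := by
    obtain ⟨n, hn, hn'⟩ := (isOfFinOrder_of_finite τ).exists_pow_eq_one
    refine ⟨n, hn, ?_⟩
    rw [Function.IsPeriodicPt, Equiv.Perm.iterate_eq_pow, hn']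
    exact Function.isFixedPt_id x
  have hp := Function.minimalPeriod_pos_of_mem_periodicPts hper
  have hb : Function.Bijective (fun i : Fin (Function.minimalPeriod τ x) => (τ ^ (i : ℕ)) x) := by
    constructor
    · intro i j hij
      have := Function.iterate_injOn_Iio_minimalPeriod (f := (τ : C → C)) (x := x)
        (show (i : ℕ) ∈ Set.Iio _ from i.2) (show (j : ℕ) ∈ Set.Iio _ from j.2)
        (by simpa [Equiv.Perm.iterate_eq_pow] using hij)
      exact Fin.ext this
    · intro c
      obtain ⟨i, hi, _, h2⟩ := (h x c).exists_pow_eq''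
      refine ⟨⟨i % Function.minimalPeriod τ x, Nat.mod_lt _ hp⟩, ?_⟩
      change (τ ^ (i % Function.minimalPeriod τ x)) x = c
      rw [← Equiv.Perm.iterate_eq_pow, Function.iterate_mod_minimalPeriod_eq,
        Equiv.Perm.iterate_eq_pow, h2]
  have := Nat.card_congr (Equiv.ofBijective _ hb)
  rw [Nat.card_eq_fintype_card (α := Fin _), Fintype.card_fin] at this
  exact this.symm

theorem pow_card {C : Type} [Finite C] (τ : Equiv.Perm C) (h : OneCyc τ) (x : C) :
    (τ ^ (Nat.card C)) x = x := by
  rw [card_period τ h x, ← Equiv.Perm.iterate_eq_pow]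
  exact Function.iterate_minimalPeriod

theorem exists_pow {C : Type} [Finite C] (τ : Equiv.Perm C) (h : OneCyc τ) (x c : C) :
    ∃ i, 1 ≤ i ∧ i ≤ Nat.card C ∧ (τ ^ i) x = c := by
  have hpos : 0 < Nat.card C := Nat.card_pos_iff.2 ⟨⟨x⟩, inferInstance⟩
  obtain ⟨i, hi, _, h2⟩ := (h x c).exists_pow_eq''
  have h3 : (τ ^ (i % Nat.card C)) x = c := by
    rw [card_period τ h x, ← Equiv.Perm.iterate_eq_pow, Function.iterate_mod_minimalPeriod_eq,
        Equiv.Perm.iterate_eq_pow, h2]
  by_cases h0 : i % Nat.card C = 0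
  · rw [h0] at h3
    refine ⟨Nat.card C, hpos, le_rfl, ?_⟩
    rw [pow_card τ h x]
    simpa using h3
  · exact ⟨i % Nat.card C, Nat.pos_of_ne_zero h0, (Nat.mod_lt _ hpos).le, h3⟩

theorem pow_inj {C : Type} [Finite C] (τ : Equiv.Perm C) (h : OneCyc τ) (x : C) {i j : ℕ}
    (hij : i < j) (hj : j < i + Nat.card C) : (τ ^ i) x ≠ (τ ^ j) x := by
  intro he
  have h1 : (τ ^ (j - i)) x = x := by
    have h2 : (τ ^ j) x = (τ ^ i) ((τ ^ (j - i)) x) := by
      rw [← Equiv.Perm.mul_apply, ← pow_add]
      congr 2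
      omega
    rw [h2] at he
    exact ((τ ^ i).injective he).symm
  have h2 : Function.IsPeriodicPt (τ : C → C) (j - i) x := by
    rw [Function.IsPeriodicPt, Equiv.Perm.iterate_eq_pow]
    exact h1
  have h3 := h2.minimalPeriod_le (by omega)
  rw [← card_period τ h x] at h3
  omega

/-- the coboundary map of the bipartite graph -/
noncomputable def dl {C V F : Type} (vt : C → V) (fc : C → F) :
    ((V ⊕ F) → ZMod 2) →ₗ[ZMod 2] (C → ZMod 2) where
  toFun f := fun c => f (Sum.inl (vt c)) - f (Sum.inr (fc c))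
  map_add' f g := by
    funext c
    simp only [Pi.add_apply]
    ring
  map_smul' a f := by
    funext c
    simp only [Pi.smul_apply, smul_eq_mul, RingHom.id_apply]
    ring

theorem exists_sep {C V F : Type} [Finite C] [Finite V] [Finite F] (τ α : Equiv.Perm C)
    (lab : C → ℕ) (vt : C → V) (fc : C → F) (O : F) (h : LCode τ α lab vt fc O) (y : C) :
    ∃ f : (V ⊕ F) → ZMod 2, f (Sum.inl (vt y)) ≠ f (Sum.inr (fc y)) ∧
      ∀ c, c ≠ y → f (Sum.inl (vt c)) = f (Sum.inr (fc c)) := by
  have := Fintype.ofFinite C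
  have := Fintype.ofFinite V
  have := Fintype.ofFinite F
  -- the kernel consists of constants
  have hker : ∀ f ∈ LinearMap.ker (dl vt fc), ∃ a : ZMod 2, f = fun _ => a := by
    intro f hf
    rw [LinearMap.mem_ker] at hf
    have h1 : ∀ c, f (Sum.inl (vt c)) = f (Sum.inr (fc c)) := by
      intro c
      have := congrFun hf c
      exact sub_eq_zero.1 this
    have h2 : ∀ c, f (Sum.inl (vt (τ c))) = f (Sum.inl (vt c)) := by
      intro c
      rw [h.vt_eq, h1, h.fc_eq, ← h1]
    have h3 : ∀ (i : ℕ) c, f (Sum.inl (vt ((τ ^ i) c))) = f (Sum.inl (vt c)) := by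
      intro i
      induction i with
      | zero => intro c; rfl
      | succ i ih =>
        intro c
        rw [pow_succ, Equiv.Perm.mul_apply, ih, h2]
    refine ⟨f (Sum.inl (vt y)), ?_⟩
    funext s
    have h4 : ∀ c, f (Sum.inl (vt c)) = f (Sum.inl (vt y)) := by
      intro c
      obtain ⟨i, _, _, hi⟩ := exists_pow τ h.cyc y c
      rw [← hi, h3]
    rcases s with v | s
    · obtain ⟨c, rfl⟩ := h.vt_surj v
      exact h4 c
    · obtain ⟨c, rfl⟩ := h.fc_surj s
      rw [← h1]
      exact h4 c
  have hk1 : Module.finrank (ZMod 2) (LinearMap.ker (dl vt fc)) ≤ 1 := by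
    refine finrank_le_one (⟨fun _ => 1, ?_⟩ : LinearMap.ker (dl vt fc)) ?_
    · rw [LinearMap.mem_ker]
      funext c
      exact sub_self _
    · intro w
      obtain ⟨a, ha⟩ := hker w.1 w.2
      refine ⟨a, ?_⟩
      apply Subtype.ext
      rw [ha]
      funext s
      simp
  have hrn := LinearMap.finrank_range_add_finrank_ker (dl vt fc)
  have hdom : Module.finrank (ZMod 2) ((V ⊕ F) → ZMod 2) = Nat.card C + 1 := by
    rw [Module.finrank_fintype_fun_eq_card, Fintype.card_sum, ← Nat.card_eq_fintype_card,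
      ← Nat.card_eq_fintype_card, h.euler]
  have hcod : Module.finrank (ZMod 2) (C → ZMod 2) = Nat.card C := by
    rw [Module.finrank_fintype_fun_eq_card, Nat.card_eq_fintype_card]
  have hrange : LinearMap.range (dl vt fc) = ⊤ := by
    apply Submodule.eq_top_of_finrank_eq
    have h1 := Submodule.finrank_le (LinearMap.range (dl vt fc))
    rw [hcod] at h1 ⊢
    omega
  obtain ⟨f, hf⟩ := LinearMap.range_eq_top.1 hrange (fun c => if c = y then 1 else 0)
  refine ⟨f, ?_, ?_⟩
  · intro he
    have := congrFun hf y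
    rw [if_pos rfl] at this
    have h0 : f (Sum.inl (vt y)) - f (Sum.inr (fc y)) = 1 := this
    rw [he, sub_self] at h0
    exact zero_ne_one h0
  · intro c hc
    have := congrFun hf c
    rw [if_neg hc] at this
    exact sub_eq_zero.1 this

end H1

theorem st_B05 : ST_B05 := by
  intro C V F _ _ _ τ α lab vt fc O h x j hj1 hjn hα i hi1 hij
  obtain ⟨f, hfy, hf⟩ := H1.exists_sep τ α lab vt fc O h (α x)
  -- facts
  have hne : α x ≠ x := by
    intro he
    have := H1.pow_inj τ h.cyc x (i := 0) (j := j) (by omega) (by omega)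
    apply this
    rw [pow_zero, ← hα, he]
    rfl
  have hstep : ∀ c, c ≠ x → c ≠ α x → f (Sum.inl (vt (τ c))) = f (Sum.inl (vt c)) := by
    intro c hc hc'
    rw [h.vt_eq, hf (α c) (fun he => hc (α.injective he)), h.fc_eq, ← hf c hc']
  have hx : f (Sum.inl (vt (τ x))) = f (Sum.inl (vt (α x))) := by
    rw [h.vt_eq]
  have hy : f (Sum.inl (vt (τ (α x)))) = f (Sum.inr (fc (α x))) := by
    rw [h.vt_eq, hf (α (α x)) (fun he => hne (α.injective he)), h.fc_eq]
  have h1 : ∀ k, 1 ≤ k → k ≤ j → f (Sum.inl (vt ((τ ^ k) x))) = f (Sum.inl (vt (α x))) := by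
    intro k hk
    induction k, hk using Nat.le_induction with
    | base =>
      intro _
      rw [pow_one]
      exact hx
    | succ k hk ih =>
      intro hkj
      rw [pow_succ', Equiv.Perm.mul_apply, hstep, ih (by omega)]
      · intro he
        apply H1.pow_inj τ h.cyc x (i := 0) (j := k) (by omega) (by omega)
        rw [he]
        rfl
      · rw [hα]
        exact H1.pow_inj τ h.cyc x (by omega) (by omega)
  have h2 : ∀ k, j + 1 ≤ k → k ≤ Nat.card C →
      f (Sum.inl (vt ((τ ^ k) x))) = f (Sum.inr (fc (α x))) := by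
    intro k hk
    induction k, hk using Nat.le_induction with
    | base =>
      intro _
      rw [pow_succ', Equiv.Perm.mul_apply, ← hα]
      exact hy
    | succ k hk ih =>
      intro hkn
      rw [pow_succ', Equiv.Perm.mul_apply, hstep, ih (by omega)]
      · intro he
        apply H1.pow_inj τ h.cyc x (i := 0) (j := k) (by omega) (by omega)
        rw [he]
        rfl
      · rw [hα]
        exact (H1.pow_inj τ h.cyc x (i := j) (j := k) (by omega) (by omega)).symm
  obtain ⟨i', hi1', hin', hi'⟩ := H1.exists_pow τ h.cyc x (α ((τ ^ i) x))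
  have h3 : f (Sum.inl (vt ((τ ^ i') x))) = f (Sum.inl (vt (α x))) := by
    rw [hi', ← h.vt_eq, ← Equiv.Perm.mul_apply, ← pow_succ']
    exact h1 (i + 1) (by omega) (by omega)
  have h4 : i' ≤ j := by
    by_contra hc
    rw [h2 i' (by omega) hin'] at h3
    exact hfy h3.symm
  have h5 : i' ≠ j := by
    intro he
    rw [he, ← hα] at hi'
    have h6 := α.injective hi'
    apply H1.pow_inj τ h.cyc x (i := 0) (j := i) (by omega) (by omega)
    rw [← h6]
    rfl
  exact ⟨i', hi1', by omega, hi'.symm⟩

end QRB
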