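import Pool.Agent.Helper98.QR.StmtsS

/-!
# Block S of QR, row S04: the vertices with small balls in terms of codes
-/

namespace QR

noncomputable section

open Filter Topology

namespace H1

theorem card_fibre {A B : Type*} [Finite A] [Finite B] (g : A → B) (K : ℕ)
    (h : ∀ b, Nat.card {a // g a = b} ≤ K) : Nat.card A ≤ K * Nat.card B := by
  classical
  have := Fintype.ofFinite B
  have h1 : Nat.card A = ∑ b, Nat.card {a // g a = b} := by
    rw [← Nat.card_sigma]
    exact Nat.card_congr (Equiv.sigmaFiberEquiv g).symm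
  rw [h1]
  calc ∑ b, Nat.card {a // g a = b} ≤ ∑ _b : B, K := Finset.sum_le_sum (fun b _ => h b)
    _ = K * Nat.card B := by
      rw [Finset.sum_const, Finset.card_univ, smul_eq_mul, Nat.card_eq_fintype_card, mul_comm]

instance finite_RMap (D : Type) [Finite D] : Finite (RMap D) := by
  have : Function.Injective (fun m : RMap D => (m.rot, m.opp)) := by
    intro m m' h
    have h1 := congrArg Prod.fst h
    have h2 := congrArg Prod.snd h
    exact RMap.ext h1 h2
  exact Finite.of_injective _ this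

theorem exists_min {P : ℕ} (c : Code P) (h0 : ∀ i, 0 ≤ c.b i) : ∃ k : ℕ, c.Min k := by
  classical
  have hex : ∃ r : ℕ, ∃ i, c.b i ≤ r := ⟨(c.b 0).toNat, 0, by
    rw [Int.toNat_of_nonneg (h0 0)]⟩
  obtain ⟨i, hi⟩ := Nat.find_spec hex
  refine ⟨Nat.find hex, ?_, i, ?_⟩
  · intro j
    by_contra hj
    have h1 := h0 j
    have h2 : (c.b j).toNat < Nat.find hex := by omega
    exact Nat.find_min hex h2 ⟨j, by rw [Int.toNat_of_nonneg h1]⟩
  · by_contra hne
    have h1 := h0 i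
    have h2 : (c.b i).toNat < Nat.find hex := by omega
    exact Nat.find_min hex h2 ⟨i, by rw [Int.toNat_of_nonneg h1]⟩

end H1

/-- S04 -/
theorem st_S04 (h01 : ST_S01) (hc01 : ST_C01) (hB : ST_B) : ST_S04 := by
  intro N P t h hP ht
  classical
  obtain ⟨κ, hsize, hpos, hb0, hnear, hcor, hlow, hfib⟩ := hB N P hP
  -- the finite types
  have hfinD : Finite (Fin (4 * N + 2 * P)) := inferInstance
  have hfinG : Finite {x // x ∈ GQ N P} := inferInstance
  have hfintG : Fintype {x // x ∈ GQ N P} := Fintype.ofFinite _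
  -- the condition on the pairs
  let p : ∀ x : {x // x ∈ GQ N P}, x.1.1.Vert → Prop := fun x v =>
    NB x.1.1 x.1.2 h v ∧ ¬ NB x.1.1 x.1.2 (4 * t ^ 16 - 1) v ∧
      Nat.card {u // SPR.Near x.1.1.mult (4 * t ^ 16) v u} ≤ t ^ 56
  let Y : Type := Σ x : {x // x ∈ GQ N P}, {v : x.1.1.Vert // p x v}
  have hfinV : ∀ x : {x // x ∈ GQ N P}, Finite x.1.1.Vert := fun x => Quotient.finite _
  have hfinY : Finite Y := by
    have : ∀ x : {x // x ∈ GQ N P}, Finite {v : x.1.1.Vert // p x v} := fun x => by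
      have := hfinV x
      infer_instance
    infer_instance
  have hL : ∑ᶠ (x) (_ : x ∈ GQ N P), Fbad t h _ x.1 x.2 = (Nat.card Y : ℝ) := by
    rw [← finsum_set_coe_eq_finsum_mem (GQ N P)]
    rw [finsum_eq_sum_of_fintype]
    have : ∀ x : {x // x ∈ GQ N P}, Finite {v : x.1.1.Vert // p x v} := fun x => by
      have := hfinV x
      infer_instance
    have h1 : Nat.card Y = ∑ x : {x // x ∈ GQ N P}, Nat.card {v : x.1.1.Vert // p x v} :=
      Nat.card_sigma
    rw [h1, Nat.cast_sum]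
    rfl
  -- the codes
  let q : ℕ → Code P → Prop := fun k c =>
    c.Min k ∧ c.size = N ∧ c.Pos ∧ 1 ≤ c.cor 1 ∧ c.low (4 * t ^ 16) < t ^ 56
  let B : Type := Σ k : {k // k ∈ Finset.Icc (4 * t ^ 16) h}, {c : Code P // q k.1 c}
  have hfinq : ∀ k : ℕ, Finite {c : Code P // q k c} := by
    intro k
    have h1 := hc01.2.2 P N k hP
    have : {c : Code P | q k c}.Finite := h1.subset (fun c hc => ⟨hc.1, hc.2.1⟩)
    exact this.to_subtype
  have hfinB : Finite B := by
    have : ∀ k : {k // k ∈ Finset.Icc (4 * t ^ 16) h}, Finite {c : Code P // q k.1 c} :=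
      fun k => hfinq k.1
    infer_instance
  have hR : (12 : ℝ) ^ N * ∑ k ∈ Finset.Icc (4 * t ^ 16) h, PowerSeries.coeff N (BS t P k) =
      (Nat.card B : ℝ) := by
    have : ∀ k : {k // k ∈ Finset.Icc (4 * t ^ 16) h}, Finite {c : Code P // q k.1 c} :=
      fun k => hfinq k.1
    have h1 : Nat.card B = ∑ k : {k // k ∈ Finset.Icc (4 * t ^ 16) h},
        Nat.card {c : Code P // q k.1 c} := Nat.card_sigma
    rw [h1, Nat.cast_sum, Finset.mul_sum, ← Finset.sum_coe_sort]
    refine Finset.sum_congr rfl (fun k _ => ?_)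
    rw [BS, PowerSeries.coeff_mk, ← mul_assoc, ← mul_pow]
    norm_num
    rfl
  -- the map from pairs to codes
  have hmap : ∀ y : Y, ∃ k : ℕ, k ∈ Finset.Icc (4 * t ^ 16) h ∧ q k (κ ⟨y.1, y.2.1⟩) := by
    intro y
    obtain ⟨x, v, hv1, hv2, hv3⟩ := y
    have hsym := (h01 _ x.1.1).2.1
    have hdeg := (h01 _ x.1.1).2.2.2.1
    obtain ⟨k, hk⟩ := H1.exists_min (κ ⟨x, v⟩) (hb0 ⟨x, v⟩)
    refine ⟨k, ?_, hk, hsize _, hpos _, ?_, ?_⟩
    · rw [Finset.mem_Icc]
      obtain ⟨hk1, i0, hk2⟩ := hk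
      constructor
      · by_contra hlt
        apply hv2
        refine ⟨i0, ?_⟩
        apply hsym
        have h1 := (hnear ⟨x, v⟩ i0 (4 * t ^ 16 - 1)).1 (by
          rw [hk2]
          exact_mod_cast (by omega : k ≤ 4 * t ^ 16 - 1))
        exact h1
      · obtain ⟨i, hi⟩ := hv1
        have h1 := (hnear ⟨x, v⟩ i h).2 (hsym _ _ _ hi)
        have h2 := hk1 i
        exact_mod_cast le_trans h2 h1
    · rw [hcor]
      change 1 ≤ SPR.deg x.1.1.mult v
      rw [hdeg]
      obtain ⟨d, rfl⟩ := Quotient.exists_rep v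
      exact Nat.card_pos_iff.2 ⟨⟨d, rfl⟩, inferInstance⟩
    · have h1 := hlow ⟨x, v⟩ (4 * t ^ 16)
      have h2 : (κ ⟨x, v⟩).low (((4 * t ^ 16 : ℕ)) : ℤ) + 1 ≤ t ^ 56 := by
        rw [h1]
        exact hv3
      have h3 : (κ ⟨x, v⟩).low (4 * (t : ℤ) ^ 16) + 1 ≤ t ^ 56 := by
        have h4 : (((4 * t ^ 16 : ℕ)) : ℤ) = 4 * (t : ℤ) ^ 16 := by push_cast; ring
        rw [← h4]
        exact h2
      exact h3
  choose kk hkk1 hkk2 using hmap
  let g : Y → B := fun y => ⟨⟨kk y, hkk1 y⟩, ⟨κ ⟨y.1, y.2.1⟩, hkk2 y⟩⟩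
  have hfinS : Finite (Σ x : {x // x ∈ GQ N P}, x.1.1.Vert) := by
    infer_instance
  have hcard : Nat.card Y ≤ (4 * N + 2 * P).factorial * Nat.card B := by
    refine H1.card_fibre g _ (fun b => ?_)
    refine le_trans ?_ (hfib b.2.1)
    have hinj : Function.Injective (fun y : {y : Y // g y = b} =>
        (⟨⟨y.1.1, y.1.2.1⟩, congrArg (fun z : B => (z.2.1 : Code P)) y.2⟩ : {z : (Σ x : {x // x ∈ GQ N P}, x.1.1.Vert) // κ z = b.2.1})) := by
      rintro ⟨⟨x, v, hv⟩, hy⟩ ⟨⟨x', v', hv'⟩, hy'⟩ he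
      have h1 := congrArg Subtype.val he
      simp only [Sigma.mk.injEq] at h1
      obtain ⟨h2, h3⟩ := h1
      subst h2
      have h4 := eq_of_heq h3
      subst h4
      rfl
    exact Nat.card_le_card_of_injective _ hinj
  have hcard' : (Nat.card Y : ℝ) ≤ ((4 * N + 2 * P).factorial : ℝ) * (Nat.card B : ℝ) := by
    exact_mod_cast hcard
  rw [hL, mul_assoc, hR]
  exact hcard'

end

end QR
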